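import Pool.Agent.H377Z.Plac.Logic

set_option autoImplicit false

namespace Pool.Agent.Results.MP_54e6ab_lc.Undecidable

open FirstOrder Pool.Agent.H377Z.Plac

/-- Let `A` be an infinite linear order and let `ι : C → A` name any of the generators by constants
(`C = A` with the identity: all generators; `C` empty: no constants). The Goedel numbering of
sentences is injective, and no computable function decides from the Goedel number of a sentence
whether it holds in the plactic monoid on `A`. -/
theorem result (A : Type) [LinearOrder A] [Infinite A] (C : Type) [Encodable C] (ι : C → A) :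
    (∀ φ ψ : (LMon C).Sentence, code φ = code ψ → φ = ψ) ∧
    ¬ ∃ f : ℕ → Bool, Computable f ∧ ∀ φ : (LMon C).Sentence,
      f (code φ) = true ↔ @Language.Sentence.Realize (LMon C) (Plactic A) (plStructure ι) φ :=
  ⟨fun φ ψ h => code_injective φ ψ h, undecidable ι⟩

end Pool.Agent.Results.MP_54e6ab_lc.Undecidable
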